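import Pool.Agent.N931.PN.Stm5
import Pool.Agent.N787.PN.Cnt

/-!
# PN/CNT2 (helper373, project PN of helper931): cells near the boundary and the special points
-/

set_option autoImplicit false

namespace Pool.Agent.N373.PN.Cnt2

open H974 H12S H389NS H984N H984P H342P Finset
open Pool.Agent.N116.EW
open Pool.Agent.N931.PN

/-- The edge is near the side number `i`. -/
def lin (D : Dm) (u : ℕ) (i : Fin 4) (e : Edg) : Prop :=
  (![e.1 - D.l, D.r - e.1, e.2.1, D.h - e.2.1] : Fin 4 → ℤ) i ≤ u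

theorem side {w u : ℕ} (hw : 1 ≤ w) (hwu : w ≤ u) {a b : ℤ} (h : b - a = u) :
    ((b : ℝ) - a) / w + 2 ≤ 3 * ((u : ℝ) / w) := by
  have hwR : (0 : ℝ) < w := by exact_mod_cast hw
  have h1 : ((b : ℝ) - a) = u := by exact_mod_cast h
  have h2 : 1 ≤ (u : ℝ) / w := by
    rw [le_div_iff₀ hwR, one_mul]
    exact_mod_cast hwu
  rw [h1]
  linarith

theorem side2 {w v : ℕ} (hw : 1 ≤ w) (hwv : w ≤ v) {a b : ℤ} (h : b - a = 2 * v) :
    ((b : ℝ) - a) / w + 2 ≤ 4 * ((v : ℝ) / w) := by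
  have hwR : (0 : ℝ) < w := by exact_mod_cast hw
  have h1 : ((b : ℝ) - a) = 2 * v := by exact_mod_cast h
  have h2 : 1 ≤ (v : ℝ) / w := by
    rw [le_div_iff₀ hwR, one_mul]
    exact_mod_cast hwv
  rw [h1, mul_div_assoc]
  linarith

theorem sd_le {a b : Vtx} {v : ℕ} (h : sd a b ≤ v) :
    b.1 - v ≤ a.1 ∧ a.1 ≤ b.1 + v ∧ b.2 - v ≤ a.2 ∧ a.2 ≤ b.2 + v := by
  rw [sd, max_le_iff, abs_le, abs_le] at h
  omega

theorem piece (D : Dm) {r u v : ℕ} (hr : 1 ≤ r) (hru : r ≤ u) (huv : u ≤ v) (i : Fin 4)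
    (p : Vtx) (S : Finset Edg) (hS : S ⊆ D.edges)
    (h : ∀ e ∈ S, lin D u i e ∧ sd (src e) p ≤ v) :
    ((S.image (cell r)).card : ℝ) ≤ 12 * ((u : ℝ) / r * ((v : ℝ) / r)) := by
  have hrv : r ≤ v := hru.trans huv
  have key : ∀ e ∈ S, (D.l ≤ e.1 ∧ e.1 ≤ D.r ∧ 0 ≤ e.2.1 ∧ e.2.1 ≤ D.h) ∧
      (p.1 - v ≤ e.1 ∧ e.1 ≤ p.1 + v ∧ p.2 - v ≤ e.2.1 ∧ e.2.1 ≤ p.2 + v) := fun e he =>
    ⟨Pool.Agent.N787.PN.Cnt.edge_box (hS he), sd_le (h e he).2⟩
  fin_cases i
  · have h1 := Pool.Agent.N787.PN.Cnt.img_le S hr (a := D.l) (b := D.l + u) (c := p.2 - v)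
      (d := p.2 + v) (by omega) (by omega) (fun e he => by
        obtain ⟨g1, g2⟩ := key e he
        have g3 : e.1 - D.l ≤ u := (h e he).1
        omega) (side hr hru (by omega)) (side2 hr hrv (by omega))
    refine h1.trans (le_of_eq (by ring))
  · have h1 := Pool.Agent.N787.PN.Cnt.img_le S hr (a := D.r - u) (b := D.r) (c := p.2 - v)
      (d := p.2 + v) (by omega) (by omega) (fun e he => by
        obtain ⟨g1, g2⟩ := key e he
        have g3 : D.r - e.1 ≤ u := (h e he).1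
        omega) (side hr hru (by omega)) (side2 hr hrv (by omega))
    refine h1.trans (le_of_eq (by ring))
  · have h1 := Pool.Agent.N787.PN.Cnt.img_le S hr (a := p.1 - v) (b := p.1 + v) (c := 0)
      (d := u) (by omega) (by omega) (fun e he => by
        obtain ⟨g1, g2⟩ := key e he
        have g3 : e.2.1 ≤ u := (h e he).1
        omega) (side2 hr hrv (by omega)) (side hr hru (by omega))
    refine h1.trans (le_of_eq (by ring))
  · have h1 := Pool.Agent.N787.PN.Cnt.img_le S hr (a := p.1 - v) (b := p.1 + v) (c := D.h - u)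
      (d := D.h) (by omega) (by omega) (fun e he => by
        obtain ⟨g1, g2⟩ := key e he
        have g3 : D.h - e.2.1 ≤ u := (h e he).1
        omega) (side2 hr hrv (by omega)) (side hr hru (by omega))
    refine h1.trans (le_of_eq (by ring))

theorem near_side {D : Dm} {u : ℕ} {e : Edg} (h : D.bd (src e) ≤ u) : ∃ i : Fin 4, lin D u i e := by
  simp only [Dm.bd, src, min_le_iff] at h
  rcases h with (h | h) | (h | h)
  · exact ⟨0, h⟩
  · exact ⟨1, h⟩
  · exact ⟨2, h⟩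
  · exact ⟨3, h⟩

theorem near_point {D : Dm} {v : ℕ} {z : Vtx} (h : qd D z ≤ v) :
    ∃ j : Fin 6, sd z (pts D j) ≤ v := by
  simp only [qd, min_le_iff] at h
  rcases h with ((h | h) | (h | h)) | (h | h)
  · exact ⟨0, h⟩
  · exact ⟨1, h⟩
  · exact ⟨2, h⟩
  · exact ⟨3, h⟩
  · exact ⟨4, h⟩
  · exact ⟨5, h⟩

theorem main : S_CNT2 := by
  classical
  refine ⟨288, by norm_num, fun D _ r u v hr hru huv => ?_⟩
  have hsub : ((D.edges.filter (fun e => D.bd (src e) ≤ u ∧ qd D (src e) ≤ v)).image (cell r)) ⊆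
      (Finset.univ : Finset (Fin 4 × Fin 6)).biUnion (fun q =>
        (D.edges.filter (fun e => lin D u q.1 e ∧ sd (src e) (pts D q.2) ≤ v)).image (cell r)) := by
    intro c hc
    obtain ⟨e, he, rfl⟩ := Finset.mem_image.1 hc
    obtain ⟨h1, h2, h3⟩ := Finset.mem_filter.1 he
    obtain ⟨i, hi⟩ := near_side h2
    obtain ⟨j, hj⟩ := near_point h3
    exact Finset.mem_biUnion.2 ⟨(i, j), Finset.mem_univ _,
      Finset.mem_image_of_mem _ (Finset.mem_filter.2 ⟨h1, hi, hj⟩)⟩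
  have h1 := (Finset.card_le_card hsub).trans Finset.card_biUnion_le
  have h2 := (Nat.cast_le (α := ℝ)).2 h1
  refine h2.trans ?_
  rw [Nat.cast_sum]
  have h3 : ∀ q ∈ (Finset.univ : Finset (Fin 4 × Fin 6)),
      ((((D.edges.filter (fun e => lin D u q.1 e ∧ sd (src e) (pts D q.2) ≤ v)).image
        (cell r)).card : ℕ) : ℝ) ≤ 12 * ((u : ℝ) / r * ((v : ℝ) / r)) := fun q _ =>
    piece D hr hru huv q.1 (pts D q.2) _ (Finset.filter_subset _ _)
      (fun e he => (Finset.mem_filter.1 he).2)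
  refine (Finset.sum_le_card_nsmul _ _ _ h3).trans (le_of_eq ?_)
  rw [Finset.card_univ, Fintype.card_prod, Fintype.card_fin, Fintype.card_fin, nsmul_eq_mul]
  push_cast
  ring

end Pool.Agent.N373.PN.Cnt2
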